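import Pool.Agent.Helper22.G4.Real
import Pool.Agent.Helper22.G4.St.C0
import Pool.Agent.Helper22.G4.St.R9

/-!
# GRAPH4, piece R13: validity of the inequalities of the gadgets
-/

namespace Pool.Agent.Helper55.G4

open Pool.Agent.Helper22.G4 Filter

theorem ev1 {a b : ℝ} (hb : 0 < b) : ∀ᶠ m : ℝ in atTop, 0 < a + m * b :=
  (tendsto_atTop_add_const_left _ a (tendsto_id.atTop_mul_const hb)).eventually_gt_atTop 0

theorem ev2 {a b c : ℝ} (hc : 0 < c) : ∀ᶠ m : ℝ in atTop, 0 < a + m * (b + m * c) := by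
  filter_upwards [ev1 (a := b - 1) hc, ev1 (a := a) one_pos, eventually_gt_atTop (0 : ℝ)]
    with m h1 h2 h3
  nlinarith

theorem gXY (g : ℕ) : 1 ≤ gX g ∧ 1 ≤ gY g ∧ (gY g = gX g + 1 ∨ gX g = gY g + 1) := by
  unfold gX gY
  split_ifs <;> omega

theorem gXY_ne {g g' : ℕ} (h : g' ≠ g) : (gX g' ≠ gX g ∧ gX g' ≠ gY g) ∨
    (gY g' ≠ gX g ∧ gY g' ≠ gY g) := by
  unfold gX gY
  split_ifs <;> omega

theorem prod_pos {X Y b : ℕ} (hXY : Y = X + 1 ∨ X = Y + 1) (h1 : b ≠ X) (h2 : b ≠ Y) :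
    0 < ((b : ℝ) - X) * ((b : ℝ) - Y) := by
  have h : (b + 1 ≤ X ∧ b + 1 ≤ Y) ∨ (X + 1 ≤ b ∧ Y + 1 ≤ b) := by omega
  rcases h with ⟨h3, h4⟩ | ⟨h3, h4⟩
  · have h5 : (b : ℝ) + 1 ≤ X := by exact_mod_cast h3
    have h6 : (b : ℝ) + 1 ≤ Y := by exact_mod_cast h4
    nlinarith
  · have h5 : (X : ℝ) + 1 ≤ b := by exact_mod_cast h3
    have h6 : (Y : ℝ) + 1 ≤ b := by exact_mod_cast h4
    nlinarith

theorem prod_nonneg {X Y b : ℕ} (hXY : Y = X + 1 ∨ X = Y + 1) :
    0 ≤ ((b : ℝ) - X) * ((b : ℝ) - Y) := by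
  by_cases h1 : b = X
  · simp [h1]
  by_cases h2 : b = Y
  · simp [h2]
  exact (prod_pos hXY h1 h2).le

variable {I : NF} (G : Geo I)

theorem fG_vec (h m : ℝ) (g s : ℕ) (x y t u w : ℝ) : G.fG h m g s (vec x y t u w) =
    (y - G.al s * x) -
      G.T (gX g) s * ((gY g * u - w) / (gX g * ((gY g : ℝ) - gX g))) -
      G.T (gY g) s * ((gX g * u - w) / (gY g * ((gX g : ℝ) - gY g))) +
      (m * (h - G.T (gX g) s - G.T (gY g) s) + G.T (gX g) s - G.T (gY g) s) *
        (t + (w - (gX g + gY g) * u) / (gX g * gY g)) := by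
  simp only [Geo.fG, bX, b0, LinearMap.add_apply, LinearMap.sub_apply, LinearMap.smul_apply,
    lin_vec, smul_eq_mul]
  ring

/-- value at a vertex of a page -/
theorem fG_u (h m : ℝ) (g s a i j : ℕ) : G.fG h m g s (G.c h m (Vx.u a i j)) =
    (G.H a i - G.al s * G.X a i) -
      G.T (gX g) s * (((a : ℝ) * (gY g - a)) / (gX g * ((gY g : ℝ) - gX g))) -
      G.T (gY g) s * (((a : ℝ) * (gX g - a)) / (gY g * ((gX g : ℝ) - gY g))) +
      (m * (h - G.T (gX g) s - G.T (gY g) s) + (G.T (gX g) s - G.T (gY g) s)) *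
        ((((a : ℝ) - gX g) * ((a : ℝ) - gY g)) / (gX g * gY g)) := by
  have hc : G.c h m (Vx.u a i j) = vec (G.X a i) (G.H a i) 1 a ((a : ℝ) ^ 2) := by
    simp [Geo.c, Vx.u]
  obtain ⟨h1, h2, h3⟩ := gXY g
  have h4 : (gX g : ℝ) ≠ 0 := by positivity
  have h5 : (gY g : ℝ) ≠ 0 := by positivity
  rw [hc, fG_vec]
  have h6 : (1 : ℝ) + ((a : ℝ) ^ 2 - (gX g + gY g) * a) / (gX g * gY g) =
      (((a : ℝ) - gX g) * ((a : ℝ) - gY g)) / (gX g * gY g) := by
    field_simp
    ring
  rw [h6]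
  ring

/-- value at a point of the form used for the vertices of the gadgets -/
theorem fG_pq (h m : ℝ) (g s : ℕ) (u1 u0 w1 w0 : ℝ) :
    G.fG h m g s (vec 0 (m * h) (2 * m - 1) (m * u1 + u0) (m * w1 + w0)) =
    (-G.T (gX g) s * ((gY g * u0 - w0) / (gX g * ((gY g : ℝ) - gX g))) -
      G.T (gY g) s * ((gX g * u0 - w0) / (gY g * ((gX g : ℝ) - gY g))) +
      (G.T (gX g) s - G.T (gY g) s) * (-1 + (w0 - (gX g + gY g) * u0) / (gX g * gY g))) +
    m * ((h - G.T (gX g) s * ((gY g * u1 - w1) / (gX g * ((gY g : ℝ) - gX g))) -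
        G.T (gY g) s * ((gX g * u1 - w1) / (gY g * ((gX g : ℝ) - gY g))) +
        (h - G.T (gX g) s - G.T (gY g) s) * (-1 + (w0 - (gX g + gY g) * u0) / (gX g * gY g)) +
        (G.T (gX g) s - G.T (gY g) s) * (2 + (w1 - (gX g + gY g) * u1) / (gX g * gY g))) +
      m * ((h - G.T (gX g) s - G.T (gY g) s) *
        (2 + (w1 - (gX g + gY g) * u1) / (gX g * gY g)))) := by
  rw [fG_vec]
  ring

theorem c_p (h m : ℝ) (g : ℕ) : G.c h m (Vx.p g) = vec 0 (m * h) (2 * m - 1)
    (m * (gX g + gY g) + 0) (m * (gX g ^ 2 + gY g ^ 2) + 0) := by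
  simp [Geo.c, Vx.p]

theorem c_q (h m : ℝ) (g : ℕ) : G.c h m (Vx.q g) = vec 0 (m * h) (2 * m - 1)
    (m * (gX g + gY g) + (gY g - gX g)) (m * (gX g ^ 2 + gY g ^ 2) + (gY g ^ 2 - gX g ^ 2)) := by
  simp [Geo.c, Vx.q]

theorem kappa_pos {g g' : ℕ} (h : g' ≠ g) :
    0 < 2 + (((gX g' : ℝ) ^ 2 + gY g' ^ 2) - (gX g + gY g) * (gX g' + gY g')) /
      (gX g * gY g) := by
  obtain ⟨h1, h2, h3⟩ := gXY g
  have h4 : (0 : ℝ) < gX g := by positivity
  have h5 : (0 : ℝ) < gY g := by positivity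
  have h6 : 2 + (((gX g' : ℝ) ^ 2 + gY g' ^ 2) - (gX g + gY g) * (gX g' + gY g')) /
      (gX g * gY g) = ((((gX g' : ℝ) - gX g) * ((gX g' : ℝ) - gY g)) +
        (((gY g' : ℝ) - gX g) * ((gY g' : ℝ) - gY g))) / (gX g * gY g) := by
    field_simp
    ring
  rw [h6]
  apply div_pos _ (mul_pos h4 h5)
  rcases gXY_ne h with ⟨h7, h8⟩ | ⟨h7, h8⟩
  · exact add_pos_of_pos_of_nonneg (prod_pos h3 h7 h8) (prod_nonneg h3)
  · exact add_pos_of_nonneg_of_pos (prod_nonneg h3) (prod_pos h3 h7 h8)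

theorem fG_p_self (h m : ℝ) (g s : ℕ) : G.fG h m g s (G.c h m (Vx.p g)) =
    G.T (gY g) s - G.T (gX g) s := by
  obtain ⟨h1, h2, h3⟩ := gXY g
  have h4 : (gX g : ℝ) ≠ 0 := by positivity
  have h5 : (gY g : ℝ) ≠ 0 := by positivity
  rw [c_p, fG_pq]
  rcases h3 with h3 | h3
  · have h6 : (gY g : ℝ) = gX g + 1 := by exact_mod_cast h3
    rw [h6] at h5 ⊢
    have h7 : (gX g : ℝ) + 1 - gX g = 1 := by ring
    have h8 : (gX g : ℝ) - (gX g + 1) = -1 := by ring
    rw [h7, h8]
    field_simp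
    ring
  · have h6 : (gX g : ℝ) = gY g + 1 := by exact_mod_cast h3
    rw [h6] at h4 ⊢
    have h7 : (gY g : ℝ) + 1 - gY g = 1 := by ring
    have h8 : (gY g : ℝ) - (gY g + 1) = -1 := by ring
    rw [h7, h8]
    field_simp
    ring

theorem fG_q_self (h m : ℝ) (g s : ℕ) : G.fG h m g s (G.c h m (Vx.q g)) = 0 := by
  obtain ⟨h1, h2, h3⟩ := gXY g
  have h4 : (gX g : ℝ) ≠ 0 := by positivity
  have h5 : (gY g : ℝ) ≠ 0 := by positivity
  rw [c_q, fG_pq]
  rcases h3 with h3 | h3
  · have h6 : (gY g : ℝ) = gX g + 1 := by exact_mod_cast h3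
    rw [h6] at h5 ⊢
    have h7 : (gX g : ℝ) + 1 - gX g = 1 := by ring
    have h8 : (gX g : ℝ) - (gX g + 1) = -1 := by ring
    rw [h7, h8]
    field_simp
    ring
  · have h6 : (gX g : ℝ) = gY g + 1 := by exact_mod_cast h3
    rw [h6] at h4 ⊢
    have h7 : (gY g : ℝ) + 1 - gY g = 1 := by ring
    have h8 : (gY g : ℝ) - (gY g + 1) = -1 := by ring
    rw [h7, h8]
    field_simp
    ring

/-- the condition at one vertex -/
def OKat (h m : ℝ) (g : ℕ) (s : ℕ × Bool) (v : Vx) : Prop :=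
  0 ≤ G.fG h m g s.1 (G.c h m v) ∧
    (G.fG h m g s.1 (G.c h m v) = 0 ↔ Fc.mem (Fc.G I.N (gX g) (gY g) g s) v)

theorem ev_at (hI : I.OK) {h : ℝ} {g : ℕ} {s : ℕ × Bool}
    (hs : Fc.G I.N (gX g) (gY g) g s ∈ I.data.fcodes)
    (hh : G.T (gX g) s.1 + G.T (gY g) s.1 < h) {v : Vx} (hv : v ∈ I.data.verts) :
    ∀ᶠ m : ℝ in atTop, OKat G h m g s v := by
  obtain ⟨hsN, hT1, hT2⟩ := gad_T hI G (b := s.2) hs
  obtain ⟨hX1, hY1, hXY⟩ := gXY g
  have hX : (0 : ℝ) < gX g := by positivity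
  have hY : (0 : ℝ) < gY g := by positivity
  have hD : 0 < h - G.T (gX g) s.1 - G.T (gY g) s.1 := by linarith
  rcases NF.verts_cases hv with rfl | rfl | ⟨a, i, j, hu, rfl⟩ | ⟨g', hg', rfl⟩ | ⟨g', hg', rfl⟩
  · -- b1
    refine Eventually.of_forall fun m => ?_
    have hc : G.c h m Vx.b1 = vec 1 (G.al I.N) 0 0 0 := by simp [Geo.c, Vx.b1]
    have h1 : G.fG h m g s.1 (G.c h m Vx.b1) = G.al I.N - G.al s.1 := by
      rw [hc, fG_vec]
      simp
    unfold OKat
    rw [h1, Fc.mem_b1]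
    have h2 : (Fc.G I.N (gX g) (gY g) g s).2.2.1.2 = decide (s.1 = I.N) := rfl
    rw [h2, decide_eq_true_iff]
    rcases hsN.lt_or_eq with h3 | h3
    · have h4 := G.mono _ _ h3 le_rfl
      refine ⟨by linarith, ?_⟩
      constructor
      · intro h5
        linarith
      · intro h5
        omega
    · rw [h3]
      simp
  · -- b2
    refine Eventually.of_forall fun m => ?_
    have hc : G.c h m Vx.b2 = vec (-1) (-G.al 0) 0 0 0 := by simp [Geo.c, Vx.b2]
    have h1 : G.fG h m g s.1 (G.c h m Vx.b2) = G.al s.1 - G.al 0 := by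
      rw [hc, fG_vec]
      simp
      ring
    unfold OKat
    rw [h1, Fc.mem_b2]
    have h2 : (Fc.G I.N (gX g) (gY g) g s).2.2.1.1 = decide (s.1 = 0) := rfl
    rw [h2, decide_eq_true_iff]
    rcases Nat.eq_zero_or_pos s.1 with h3 | h3
    · rw [h3]
      simp
    · have h4 := G.mono _ _ h3 hsN
      refine ⟨by linarith, ?_⟩
      constructor
      · intro h5
        linarith
      · intro h5
        omega
  · -- a vertex of a page
    have hmem : Fc.mem (Fc.G I.N (gX g) (gY g) g s) (Vx.u a i j) = true ↔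
        (a = gX g ∨ a = gY g) ∧ i ≤ s.1 ∧ s.1 ≤ j := by
      rw [Fc.mem_u]
      simp only [Fc.G]
      tauto
    have ht := G.tan a i j hu s.1 hsN
    by_cases haX : a = gX g
    · refine Eventually.of_forall fun m => ?_
      unfold OKat
      have h1 : G.fG h m g s.1 (G.c h m (Vx.u a i j)) =
          (G.H a i - G.al s.1 * G.X a i) - G.T a s.1 := by
        rw [fG_u, haX]
        have h2 : (gX g : ℝ) * ((gY g : ℝ) - gX g) / (gX g * ((gY g : ℝ) - gX g)) = 1 := by
          apply div_self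
          apply mul_ne_zero hX.ne'
          rw [sub_ne_zero]
          intro h3
          have h4 : gY g = gX g := by exact_mod_cast h3
          omega
        rw [h2]
        simp
      rw [h1, hmem]
      refine ⟨by linarith [ht.1], ?_⟩
      rw [sub_eq_zero]
      constructor
      · intro h2
        exact ⟨Or.inl haX, ht.2.1 h2.symm⟩
      · intro h2
        exact (ht.2.2 h2.2).symm
    · by_cases haY : a = gY g
      · refine Eventually.of_forall fun m => ?_
        unfold OKat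
        have h1 : G.fG h m g s.1 (G.c h m (Vx.u a i j)) =
            (G.H a i - G.al s.1 * G.X a i) - G.T a s.1 := by
          rw [fG_u, haY]
          have h2 : (gY g : ℝ) * ((gX g : ℝ) - gY g) / (gY g * ((gX g : ℝ) - gY g)) = 1 := by
            apply div_self
            apply mul_ne_zero hY.ne'
            rw [sub_ne_zero]
            intro h3
            have h4 : gX g = gY g := by exact_mod_cast h3
            omega
          rw [h2]
          simp
        rw [h1, hmem]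
        refine ⟨by linarith [ht.1], ?_⟩
        rw [sub_eq_zero]
        constructor
        · intro h2
          exact ⟨Or.inr haY, ht.2.1 h2.symm⟩
        · intro h2
          exact (ht.2.2 h2.2).symm
      · -- another page
        have hpos : 0 < (((a : ℝ) - gX g) * ((a : ℝ) - gY g)) / (gX g * gY g) :=
          div_pos (prod_pos hXY haX haY) (mul_pos hX hY)
        filter_upwards [ev1 (a := (G.H a i - G.al s.1 * G.X a i) -
          G.T (gX g) s.1 * (((a : ℝ) * (gY g - a)) / (gX g * ((gY g : ℝ) - gX g))) -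
          G.T (gY g) s.1 * (((a : ℝ) * (gX g - a)) / (gY g * ((gX g : ℝ) - gY g))) +
          (G.T (gX g) s.1 - G.T (gY g) s.1) *
            ((((a : ℝ) - gX g) * ((a : ℝ) - gY g)) / (gX g * gY g))) (mul_pos hD hpos)]
          with m hm
        have h1 : 0 < G.fG h m g s.1 (G.c h m (Vx.u a i j)) := by
          rw [fG_u]
          linarith
        unfold OKat
        refine ⟨h1.le, ?_⟩
        rw [hmem]
        constructor
        · intro h2
          exact absurd h2 h1.ne'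
        · rintro ⟨h2 | h2, -⟩
          · exact absurd h2 haX
          · exact absurd h2 haY
  · -- p g'
    by_cases hgg : g' = g
    · subst hgg
      refine Eventually.of_forall fun m => ?_
      unfold OKat
      rw [fG_p_self, Fc.mem_p]
      simp only [Fc.G]
      cases hb : s.2 with
      | true =>
        have h1 := hT1 hb
        rw [h1]
        simp
      | false =>
        have h1 := hT2 hb
        refine ⟨by linarith, ?_⟩
        constructor
        · intro h2
          linarith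
        · intro h2
          simp at h2
    · filter_upwards [ev2 (a := _) (b := _) (mul_pos hD (kappa_pos hgg))] with m hm
      have h1 : 0 < G.fG h m g s.1 (G.c h m (Vx.p g')) := by
        rw [c_p, fG_pq]
        exact hm
      unfold OKat
      refine ⟨h1.le, ?_⟩
      rw [Fc.mem_p]
      constructor
      · intro h2
        exact absurd h2 h1.ne'
      · intro h2
        simp only [Fc.G] at h2
        split_ifs at h2 <;> omega
  · -- q g'
    by_cases hgg : g' = g
    · subst hgg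
      refine Eventually.of_forall fun m => ?_
      unfold OKat
      rw [fG_q_self, Fc.mem_q]
      simp [Fc.G]
    · filter_upwards [ev2 (a := _) (b := _) (mul_pos hD (kappa_pos hgg))] with m hm
      have h1 : 0 < G.fG h m g s.1 (G.c h m (Vx.q g')) := by
        rw [c_q, fG_pq]
        exact hm
      unfold OKat
      refine ⟨h1.le, ?_⟩
      rw [Fc.mem_q]
      constructor
      · intro h2
        exact absurd h2 h1.ne'
      · intro h2
        simp only [Fc.G] at h2
        omega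

/-- G4-R13 (validity of the inequalities `G`). -/
theorem valid_G {I : NF} (hI : I.OK) (G : Geo I) : ∀ᶠ h : ℝ in Filter.atTop,
    ∀ᶠ m : ℝ in Filter.atTop, ∀ g < 3 * I.ops.length, ∀ s,
      Fc.G I.N (gX g) (gY g) g s ∈ I.data.fcodes →
        G.Valid h m (Fc.G I.N (gX g) (gY g) g s) := by
  have h1 : ∀ᶠ h : ℝ in atTop, ∀ g ∈ {g : ℕ | g < 3 * I.ops.length}, ∀ s ∈ {s : ℕ | s ≤ I.N},
      G.T (gX g) s + G.T (gY g) s < h :=
    (eventually_all_finite (Set.finite_lt_nat _)).2 fun g _ =>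
      (eventually_all_finite (Set.finite_le_nat _)).2 fun s _ => eventually_gt_atTop _
  filter_upwards [h1] with h hh
  have h2 : ∀ᶠ m : ℝ in atTop, ∀ g ∈ {g : ℕ | g < 3 * I.ops.length}, ∀ s ∈ {s : ℕ | s ≤ I.N},
      ∀ b : Bool, ∀ v ∈ {v : Vx | v ∈ I.data.verts},
        Fc.G I.N (gX g) (gY g) g (s, b) ∈ I.data.fcodes → OKat G h m g (s, b) v := by
    refine (eventually_all_finite (Set.finite_lt_nat _)).2 fun g hg =>
      (eventually_all_finite (Set.finite_le_nat _)).2 fun s hs => eventually_all.2 fun b =>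
        (eventually_all_finite (List.finite_toSet _)).2 fun v hv => ?_
    by_cases h3 : Fc.G I.N (gX g) (gY g) g (s, b) ∈ I.data.fcodes
    · exact (ev_at G hI h3 (hh g hg s hs) hv).mono fun m hm _ => hm
    · exact Eventually.of_forall fun m hm => absurd hm h3
  filter_upwards [h2] with m hm g hg s hs v hv
  have h3 := hm g hg s.1 (gad_T hI G (b := s.2) hs).1 s.2 v hv hs
  rw [Geo.phi_G]
  exact h3

end Pool.Agent.Helper55.G4
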